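import Mathlib

/-!
# MP_1bde1f_co: arc-complexity ratios of gammoids are dense in the positive reals

Counting transversal matroids gives unbounded ratios; adding loops then fills every interval.
-/

namespace Pool.Agent.Results.MP_1bde1f_co.Dense

open Finset

/-- There is a routing from `X` to `T` in the digraph with arc set `A`. -/
def Routable (A : Finset (ℕ × ℕ)) (T X : Finset ℕ) : Prop :=
  ∃ R : Set (List ℕ), (∀ p ∈ R, p.Nodup ∧ p.IsChain (fun u v => (u, v) ∈ A) ∧
    ∃ t ∈ T, p.getLast? = some t) ∧ R.Pairwise List.Disjoint ∧ ∀ x ∈ X, ∃ p ∈ R, p.head? = some x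

/-- The independent sets of `Γ(D, T, E)`. -/
def Gamma (A : Finset (ℕ × ℕ)) (T E : Finset ℕ) : Set (Finset ℕ) := {X | X ⊆ E ∧ Routable A T X}

/-- Targets lie in `E` and are sinks; the other elements of `E` are sources. -/
def Standard (A : Finset (ℕ × ℕ)) (T E : Finset ℕ) : Prop :=
  T ⊆ E ∧ (∀ a ∈ A, a.1 ∉ T) ∧ ∀ a ∈ A, a.2 ∈ E → a.2 ∈ T

def costs (E : Finset ℕ) (I : Set (Finset ℕ)) : Set ℕ :=
  {c | ∃ A T, Standard A T E ∧ Gamma A T E = I ∧ A.card = c}

/-- The arc-complexity of the matroid with ground set `E` and independent sets `I`. -/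
noncomputable def arcC (E : Finset ℕ) (I : Set (Finset ℕ)) : ℕ := sInf (costs E I)

variable {A : Finset (ℕ × ℕ)} {T X E : Finset ℕ}

theorem route_map (σ : Equiv.Perm ℕ) (hT : ∀ v ∈ T, σ v = v) (hX : ∀ v ∈ X, σ v = v)
    (h : Routable A T X) : Routable (A.image (Prod.map σ σ)) T X := by
  obtain ⟨R, h1, h2, h3⟩ := h
  refine ⟨List.map σ '' R, ?_, ?_, fun x hx => ?_⟩
  · rintro _ ⟨p, hp, rfl⟩
    obtain ⟨a, b, t, ht, c⟩ := h1 p hp
    refine ⟨a.map σ.injective, List.isChain_map_of_isChain σ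
      (fun u v huv => mem_image_of_mem (Prod.map σ σ) huv) b, t, ht, ?_⟩
    rw [List.getLast?_map, c, Option.map_some, hT t ht]
  · rintro _ ⟨p, hp, rfl⟩ _ ⟨q, hq, rfl⟩ hne
    exact (List.disjoint_map σ.injective (h2 hp hq fun e => hne (by rw [e])))
  · obtain ⟨p, hp, e⟩ := h3 x hx
    exact ⟨_, ⟨p, hp, rfl⟩, by rw [List.head?_map, e, Option.map_some, hX x hx]⟩

theorem move (h : Standard A T E) (L : ℕ) (hL : ∀ e ∈ E, e < L) :
    ∃ A' : Finset (ℕ × ℕ), A'.card = A.card ∧ Standard A' T E ∧ Gamma A' T E = Gamma A T E ∧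
      ∀ a ∈ A', ∀ v, v = a.1 ∨ v = a.2 → v ∈ E ∨ (L ≤ v ∧ v < L + 2 * A.card) := by
  let W := A.image Prod.fst ∪ A.image Prod.snd
  have hW : W.card ≤ 2 * A.card := (card_union_le _ _).trans
    ((add_le_add card_image_le card_image_le).trans (by omega))
  obtain ⟨idx, hlt, hinj⟩ : ∃ idx : ℕ → ℕ, (∀ v ∈ W, idx v < W.card) ∧ Set.InjOn idx W := by
    refine ⟨fun v => if h : v ∈ W then W.equivFin ⟨v, h⟩ else 0, fun v hv => ?_,
      fun u hu v hv e => ?_⟩
    · simp only [dif_pos hv]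
      exact Fin.is_lt _
    · simp only [dif_pos (mem_coe.1 hu), dif_pos (mem_coe.1 hv)] at e
      exact congrArg Subtype.val (W.equivFin.injective (Fin.ext e))
  obtain ⟨σ, hσ⟩ := Equiv.Perm.exists_extending_pair (α := ↥(E ∪ W)) (f := Subtype.val)
    (g := fun v => if v.1 ∈ E then v.1 else L + idx v.1) Subtype.val_injective (by
      rintro ⟨u, hu⟩ ⟨v, hv⟩ e
      simp only at e
      refine Subtype.ext ?_
      split_ifs at e with h1 h2 h2
      · exact e
      · have := hL u h1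
        omega
      · have := hL v h2
        omega
      · exact hinj ((mem_union.1 hu).resolve_left h1) ((mem_union.1 hv).resolve_left h2)
          (Nat.add_left_cancel e))
  have hE : ∀ v ∈ E, σ v = v := fun v hv => (hσ ⟨v, mem_union_left _ hv⟩).trans (if_pos hv)
  have hE' : ∀ v ∈ E, σ.symm v = v := fun v hv => by rw [Equiv.symm_apply_eq, hE v hv]
  have hfix : ∀ v, σ v ∈ E → σ v = v := fun v hv => σ.injective (hE _ hv)
  refine ⟨A.image (Prod.map σ σ), card_image_of_injective _ (σ.injective.prodMap σ.injective),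
    ⟨h.1, ?_, ?_⟩, Set.ext fun X => and_congr_right fun hX => ⟨fun hr => ?_, fun hr => ?_⟩, ?_⟩
  · simp only [forall_mem_image, Prod.map_fst]
    exact fun a ha ht => h.2.1 a ha (hfix _ (h.1 ht) ▸ ht)
  · simp only [forall_mem_image, Prod.map_snd]
    intro a ha ht
    have e := hfix _ ht
    rw [e] at ht ⊢
    exact h.2.2 a ha ht
  · have := route_map σ.symm (fun v hv => hE' v (h.1 hv)) (fun v hv => hE' v (hX hv)) hr
    rwa [image_image, show Prod.map σ.symm σ.symm ∘ Prod.map σ σ = id by ext <;> simp,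
      image_id] at this
  · exact route_map σ (fun v hv => hE v (h.1 hv)) (fun v hv => hE v (hX hv)) hr
  · have key : ∀ v ∈ W, σ v ∈ E ∨ (L ≤ σ v ∧ σ v < L + 2 * A.card) := fun v hv => by
      have h1 := hσ ⟨v, mem_union_right _ hv⟩
      have h2 := hlt v hv
      simp only at h1
      split_ifs at h1 with h3
      · exact Or.inl (h1.symm ▸ h3)
      · exact Or.inr (by omega)
    simp only [forall_mem_image]
    rintro a ha v (rfl | rfl)
    · exact key _ (mem_union_left _ (mem_image_of_mem _ ha))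
    · exact key _ (mem_union_right _ (mem_image_of_mem _ ha))

theorem start {p : List ℕ} {x t : ℕ} (hc : p.IsChain fun u v => (u, v) ∈ A)
    (h1 : p.head? = some x) (h2 : p.getLast? = some t) : x = t ∨ ∃ y ∈ p, (x, y) ∈ A := by
  match p, hc, h1, h2 with
  | [a], _, h1, h2 => exact Or.inl (by simp_all)
  | a :: b :: l, hc, h1, _ =>
    obtain rfl : a = x := by simpa using h1
    exact Or.inr ⟨b, by simp, (List.isChain_cons_cons.1 hc).1⟩

theorem single {t : ℕ} (ht : t ∈ T) : Routable A T {t} :=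
  ⟨{[t]}, by simp [ht], Set.pairwise_singleton _ _, by simp⟩

theorem costs_eq {n N : ℕ} (hn : n ≤ N) {I : Set (Finset ℕ)} (hI : ∀ X ∈ I, X ⊆ range n) :
    costs (range N) I = costs (range n) I := by
  have hs := range_mono hn
  ext c
  constructor
  · rintro ⟨A, T, h, hG, rfl⟩
    refine ⟨A, T, ⟨fun t ht => hI {t} ?_ (mem_singleton_self t), h.2.1,
      fun a ha e => h.2.2 a ha (hs e)⟩, ?_, rfl⟩
    · rw [← hG]
      exact ⟨singleton_subset_iff.2 (h.1 ht), single ht⟩
    · ext X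
      exact ⟨fun hX => hG ▸ ⟨hX.1.trans hs, hX.2⟩, fun hX => ⟨hI X hX, (hG.symm ▸ hX).2⟩⟩
  · rintro ⟨A, T, h, rfl, rfl⟩
    obtain ⟨A', hc, h', hG, hv⟩ := move h N fun e he => mem_range.1 (hs he)
    have key : ∀ a ∈ A', ∀ v, v = a.1 ∨ v = a.2 → v ∈ range N → v ∈ range n :=
      fun a ha v e hN => (hv a ha v e).resolve_right fun h3 => absurd (mem_range.1 hN) (by omega)
    refine ⟨A', T, ⟨h.1.trans hs, h'.2.1, fun a ha e => h'.2.2 a ha (key a ha _ (Or.inr rfl) e)⟩,
      hG ▸ Set.ext fun X => ⟨fun hX => ⟨fun x hx => ?_, hX.2⟩, fun hX => ⟨hX.1.trans hs, hX.2⟩⟩, hc⟩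
    obtain ⟨R, h1, -, h3⟩ := hX.2
    obtain ⟨p, hp, e⟩ := h3 x hx
    obtain ⟨-, b, t, ht, c⟩ := h1 p hp
    rcases start b e c with rfl | ⟨y, -, hy⟩
    · exact h.1 ht
    · exact key _ hy _ (Or.inl rfl) (hX.1 hx)

def arcs (m : ℕ) (B : Finset (ℕ × ℕ)) : Finset (ℕ × ℕ) := B.image fun p => (m + p.1, p.2)

theorem arcs_std {m : ℕ} {B : Finset (ℕ × ℕ)} (hB : B ⊆ range m ×ˢ range m) :
    Standard (arcs m B) (range m) (range (2 * m)) := by
  refine ⟨range_mono (by omega), ?_, ?_⟩ <;> simp only [arcs, forall_mem_image]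
  · simp
  · exact fun a ha _ => (mem_product.1 (hB ha)).2

theorem arcs_mem {m s t : ℕ} {B : Finset (ℕ × ℕ)} (hB : B ⊆ range m ×ˢ range m) (hs : s < m)
    (ht : t < m) : insert (m + s) ((range m).erase t) ∈ Gamma (arcs m B) (range m) (range (2 * m)) ↔
      (s, t) ∈ B := by
  constructor
  · rintro ⟨-, R, h1, h2, h3⟩
    obtain ⟨p, hp, e⟩ := h3 _ (mem_insert_self _ _)
    obtain ⟨-, b, u, hu, c⟩ := h1 p hp
    rcases start b e c with rfl | ⟨y, hy, hA⟩
    · simp at hu
    obtain ⟨⟨s', y'⟩, hq, e'⟩ := mem_image.1 hA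
    simp only [Prod.mk.injEq, Nat.add_left_cancel_iff] at e'
    obtain ⟨rfl, rfl⟩ := e'
    by_contra hn
    have hy' := (mem_product.1 (hB hq)).2
    obtain ⟨q, hqR, e2⟩ := h3 y' (mem_insert_of_mem (mem_erase.2 ⟨fun e => hn (e ▸ hq), hy'⟩))
    refine h2 hp hqR (fun e3 => ?_) hy (List.mem_of_mem_head? e2)
    rw [e3, e2] at e
    have := mem_range.1 hy'
    have := Option.some.inj e
    simp only at *
    omega
  · intro h
    refine ⟨fun x hx => ?_, insert [m + s, t] {p | ∃ u, u < m ∧ u ≠ t ∧ p = [u]}, ?_, ?_,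
      fun x hx => ?_⟩
    · simp only [mem_insert, mem_erase, mem_range] at hx ⊢
      omega
    · rintro _ (rfl | ⟨u, hu, -, rfl⟩)
      · refine ⟨by simp; omega, ?_, t, mem_range.2 ht, rfl⟩
        exact List.isChain_pair.2 (mem_image_of_mem (fun p : ℕ × ℕ => (m + p.1, p.2)) h)
      · simp [hu]
    · rintro _ (rfl | ⟨u, hu, hu', rfl⟩) _ (rfl | ⟨v, hv, hv', rfl⟩) hne
      · exact absurd rfl hne
      · simp
        omega
      · simp
        omega
      · simpa using hne.symm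
    · rcases mem_insert.1 hx with rfl | hx
      · exact ⟨_, Or.inl rfl, rfl⟩
      · exact ⟨[x], Or.inr ⟨x, mem_range.1 (mem_erase.1 hx).2, (mem_erase.1 hx).1, rfl⟩, rfl⟩

theorem count (m c : ℕ) (hm : 0 < m) (h : ∀ B ⊆ range m ×ˢ range m,
    arcC (range (2 * m)) (Gamma (arcs m B) (range m) (range (2 * m))) ≤ c) :
    2 ^ (m * m) ≤ (c + 1) * ((2 * m + 2 * c) * (2 * m + 2 * c)) ^ c * 2 ^ (2 * m) := by
  let N := 2 * m + 2 * c
  let F := ((range (c + 1)).biUnion fun i => powersetCard i (range N ×ˢ range N)) ×ˢ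
    (range (2 * m)).powerset
  have key : ∀ B ∈ (range m ×ˢ range m).powerset, ∃ q ∈ F,
      Gamma q.1 q.2 (range (2 * m)) = Gamma (arcs m B) (range m) (range (2 * m)) := by
    intro B hB
    have hB := mem_powerset.1 hB
    obtain ⟨A, T, hs, hG, hc⟩ := Nat.sInf_mem (s := costs (range (2 * m))
      (Gamma (arcs m B) (range m) (range (2 * m)))) ⟨_, _, _, arcs_std hB, rfl, rfl⟩
    have hc : A.card ≤ c := hc.le.trans (h B hB)
    obtain ⟨A', hc', -, hG', hv⟩ := move hs (2 * m) fun e he => mem_range.1 he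
    refine ⟨(A', T), mem_product.2 ⟨mem_biUnion.2 ⟨A.card, mem_range.2 (by omega),
      mem_powersetCard.2 ⟨fun a ha => mem_product.2 ⟨?_, ?_⟩, hc'⟩⟩, mem_powerset.2 hs.1⟩,
      hG'.trans hG⟩
    · have := hv a ha _ (Or.inl rfl)
      simp only [mem_range, N] at this ⊢
      omega
    · have := hv a ha _ (Or.inr rfl)
      simp only [mem_range, N] at this ⊢
      omega
  choose! f hf hG using key
  have h1 := card_le_card_of_injOn f hf fun B hB B' hB' e => by
    have e2 := (hG B hB).symm.trans (e ▸ hG B' hB')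
    have hB := mem_powerset.1 (mem_coe.1 hB)
    have hB' := mem_powerset.1 (mem_coe.1 hB')
    ext ⟨s, t⟩
    by_cases hst : s < m ∧ t < m
    · rw [← arcs_mem hB hst.1 hst.2, ← arcs_mem hB' hst.1 hst.2, e2]
    · exact iff_of_false (fun h => hst (by simpa using hB h)) fun h => hst (by simpa using hB' h)
  simp only [F, card_powerset, card_product, card_range] at h1
  refine h1.trans (Nat.mul_le_mul_right _ (card_biUnion_le.trans ?_))
  refine (sum_le_card_nsmul _ _ ((N * N) ^ c) fun i hi => ?_).trans (by simp [N])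
  rw [card_powersetCard, card_product, card_range]
  exact (Nat.choose_le_pow _ _).trans (Nat.pow_le_pow_right
    (Nat.mul_pos (by omega) (by omega)) (Nat.le_of_lt_succ (mem_range.1 hi)))

theorem big (K : ℕ) : ∃ m B, 0 < m ∧
    2 * K * m < arcC (range (2 * m)) (Gamma (arcs m B) (range m) (range (2 * m))) := by
  let κ := 2 + 4 * K
  let i := 8 * K + (2 + 2 * K + 4 * K * κ) + 1
  by_contra hn
  push Not at hn
  have hm : 0 < 2 ^ (2 * i) := Nat.two_pow_pos _
  have h1 := count _ _ hm fun B _ => hn _ B hm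
  have h2 : i * i < 2 ^ (2 * i) := by
    rw [two_mul, pow_add]
    exact Nat.mul_lt_mul'' Nat.lt_two_pow_self Nat.lt_two_pow_self
  generalize hM : 2 ^ (2 * i) = m at h1 h2 hm
  have h3 : 2 * m + 2 * (2 * K * m) ≤ 2 ^ (κ + 2 * i) := by
    rw [pow_add, hM, show 2 * m + 2 * (2 * K * m) = κ * m by simp only [κ]; ring]
    exact Nat.mul_le_mul_right _ Nat.lt_two_pow_self.le
  have h4 := h1.trans (Nat.mul_le_mul_right _ (Nat.mul_le_mul
    (Nat.succ_le_of_lt Nat.lt_two_pow_self) (Nat.pow_le_pow_left (Nat.mul_le_mul h3 h3) _)))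
  rw [← pow_add, ← pow_mul, ← pow_add, ← pow_add, Nat.pow_le_pow_iff_right (by omega),
    show 2 * K * m + (κ + 2 * i + (κ + 2 * i)) * (2 * K * m) + 2 * m =
      (2 + 2 * K + 4 * K * κ + 8 * K * i) * m by ring] at h4
  have h5 := Nat.le_of_mul_le_mul_right h4 hm
  have h6 : i * i = (8 * K + (2 + 2 * K + 4 * K * κ) + 1) * i := rfl
  have h7 : (2 + 2 * K + 4 * K * κ) * 1 ≤ (2 + 2 * K + 4 * K * κ) * i :=
    Nat.mul_le_mul_left _ (Nat.le_add_left _ _)
  nlinarith

/-- Every interval `(a, b)` with `0 < a < b` contains `arcC(M) / |E|` for a gammoid `M` on a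
nonempty ground set `E`. -/
theorem result (a b : ℝ) (ha : 0 < a) (hab : a < b) : ∃ (E : Finset ℕ) (I : Set (Finset ℕ)),
    E.Nonempty ∧ (∃ A T, Gamma A T E = I) ∧ a < arcC E I / E.card ∧ arcC E I / E.card < b := by
  obtain ⟨K, hK⟩ := exists_nat_gt (b + a * b / (b - a))
  obtain ⟨m, B, hm, hbig⟩ := big K
  set I := Gamma (arcs m B) (range m) (range (2 * m))
  set α := arcC (range (2 * m)) I with hα
  have hb : 0 < b := ha.trans hab
  have hd : 0 < a * b / (b - a) := div_pos (mul_pos ha hb) (sub_pos.2 hab)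
  have h1 : 2 * (K : ℝ) * m < α := by exact_mod_cast hbig
  have hm1 : (1 : ℝ) ≤ m := by exact_mod_cast hm
  let N := ⌊α / b⌋₊ + 1
  have hN1 : α / b < N := by
    push_cast [N]
    exact Nat.lt_floor_add_one _
  have hN2 : (N : ℝ) ≤ α / b + 1 := by
    push_cast [N]
    exact add_le_add_left (Nat.floor_le (by positivity)) _
  rw [div_lt_iff₀ hb] at hN1
  have hN : 2 * m ≤ N := by
    have : ((2 * m : ℕ) : ℝ) * b ≤ N * b := by
      push_cast
      nlinarith
    exact_mod_cast le_of_mul_le_mul_right this hb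
  have hc := costs_eq hN (I := I) fun X hX => hX.1
  have hpos : (0 : ℝ) < N := by positivity
  have hne : (costs (range (2 * m)) I).Nonempty := by
    by_contra h0
    rw [hα, arcC, Set.not_nonempty_iff_eq_empty.1 h0] at hbig
    simp at hbig
  rw [← hc] at hne
  obtain ⟨_, A, T, -, hG, -⟩ := hne
  refine ⟨range N, I, ⟨0, mem_range.2 (Nat.succ_pos _)⟩, ⟨A, T, hG⟩, ?_, ?_⟩ <;>
    rw [arcC, hc, ← arcC, ← hα, card_range]
  · rw [lt_div_iff₀ hpos]
    have h2 : a * b / (b - a) < α := by nlinarith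
    rw [div_lt_iff₀ (sub_pos.2 hab)] at h2
    have h3 : (N : ℝ) * b ≤ α + b := by
      have := mul_le_mul_of_nonneg_right hN2 hb.le
      rwa [add_mul, div_mul_cancel₀ _ hb.ne', one_mul] at this
    refine lt_of_mul_lt_mul_right ?_ hb.le
    nlinarith
  · rw [div_lt_iff₀ hpos]
    linarith

end Pool.Agent.Results.MP_1bde1f_co.Dense
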